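import Mathlib

set_option autoImplicit false

namespace Pool.Agent.Results.MP_f34218_co.TradeSize

open Matrix Finset

/-- `H` is a complex Hadamard matrix of order `n`. -/
def IsComplexHadamard {n : ℕ} (H : Matrix (Fin n) (Fin n) ℂ) : Prop :=
  (∀ i j, ‖H i j‖ = 1) ∧ H * Hᴴ = (n : ℂ) • (1 : Matrix (Fin n) (Fin n) ℂ)

/-- `T` is a trade in `H`: some complex Hadamard matrix `H' ≠ H` differs from `H` exactly at the
positions in `T`. -/
def IsTrade {n : ℕ} (H : Matrix (Fin n) (Fin n) ℂ) (T : Finset (Fin n × Fin n)) : Prop :=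
  ∃ H' : Matrix (Fin n) (Fin n) ℂ, IsComplexHadamard H' ∧ H' ≠ H ∧
    ∀ i j, (i, j) ∈ T ↔ H' i j ≠ H i j

theorem row_orth {n : ℕ} {H : Matrix (Fin n) (Fin n) ℂ} (hH : IsComplexHadamard H) {i k : Fin n}
    (h : i ≠ k) : ∑ b, H i b * star (H k b) = 0 := by
  have := congrFun (congrFun hH.2 i) k
  rw [Matrix.mul_apply] at this
  simpa [Matrix.one_apply, h] using this

theorem col_gram {n : ℕ} {H : Matrix (Fin n) (Fin n) ℂ} (hH : IsComplexHadamard H) (j l : Fin n) :
    ∑ a, star (H a l) * H a j = if j = l then (n : ℂ) else 0 := by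
  have hn : (n : ℂ) ≠ 0 := by
    have : 0 < n := lt_of_le_of_lt (Nat.zero_le _) j.isLt
    exact_mod_cast this.ne'
  have h2 : H * ((n : ℂ)⁻¹ • Hᴴ) = 1 := by
    rw [Matrix.mul_smul, hH.2, smul_smul, inv_mul_cancel₀ hn, one_smul]
  have h3 : ((n : ℂ)⁻¹ • Hᴴ) * H = 1 := mul_eq_one_comm.mp h2
  have h4 : Hᴴ * H = (n : ℂ) • (1 : Matrix (Fin n) (Fin n) ℂ) := by
    rw [← h3, Matrix.smul_mul, smul_smul, mul_inv_cancel₀ hn, one_smul]
  have h5 := congrFun (congrFun h4 l) j
  rw [Matrix.mul_apply] at h5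
  simp only [Matrix.conjTranspose_apply, Matrix.smul_apply, Matrix.one_apply, smul_eq_mul] at h5
  rw [h5]
  by_cases h : j = l
  · simp [h]
  · simp [h, Ne.symm h]

/-- A nonzero combination of the rows in `R` has at least `n / |R|` nonzero entries. -/
theorem support_bound {n : ℕ} {H : Matrix (Fin n) (Fin n) ℂ} (hH : IsComplexHadamard H)
    (e : Fin n → ℂ) (R : Finset (Fin n)) (hR : ∀ k, k ∉ R → ∑ j, e j * star (H k j) = 0)
    (he : ∃ j, e j ≠ 0) : n ≤ R.card * (univ.filter fun j => e j ≠ 0).card := by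
  classical
  obtain ⟨j₁, hj₁⟩ := he
  obtain ⟨j₀, -, hmax⟩ := Finset.exists_max_image (univ : Finset (Fin n)) (fun j => ‖e j‖) ⟨j₁, mem_univ _⟩
  have hpos : 0 < ‖e j₀‖ := lt_of_lt_of_le (norm_pos_iff.mpr hj₁) (hmax j₁ (mem_univ _))
  set S := univ.filter fun j => e j ≠ 0 with hS
  have h1 : (n : ℂ) * e j₀ = ∑ k ∈ R, (∑ l, e l * star (H k l)) * H k j₀ := by
    have h2 : ∑ k ∈ R, (∑ l, e l * star (H k l)) * H k j₀ =
        ∑ k, (∑ l, e l * star (H k l)) * H k j₀ := by
      refine Finset.sum_subset (Finset.subset_univ _) fun k _ hk => ?_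
      rw [hR k hk, zero_mul]
    rw [h2]
    simp only [Finset.sum_mul]
    rw [Finset.sum_comm]
    have h3 : ∀ l, ∑ k, e l * star (H k l) * H k j₀ = e l * (if j₀ = l then (n : ℂ) else 0) := by
      intro l
      rw [← col_gram hH j₀ l, Finset.mul_sum]
      exact Finset.sum_congr rfl fun k _ => by ring
    simp only [h3]
    simp [mul_comm]
  have h4 : ∀ k, ‖∑ l, e l * star (H k l)‖ ≤ S.card * ‖e j₀‖ := by
    intro k
    calc ‖∑ l, e l * star (H k l)‖ ≤ ∑ l, ‖e l * star (H k l)‖ := norm_sum_le _ _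
      _ = ∑ l, ‖e l‖ := by
          refine Finset.sum_congr rfl fun l _ => ?_
          rw [norm_mul, norm_star, hH.1, mul_one]
      _ = ∑ l ∈ S, ‖e l‖ := by
          symm
          refine Finset.sum_subset (Finset.subset_univ _) fun l _ hl => ?_
          have : e l = 0 := by
            by_contra hc
            exact hl (by rw [hS]; simpa using hc)
          rw [this, norm_zero]
      _ ≤ ∑ _l ∈ S, ‖e j₀‖ := Finset.sum_le_sum fun l _ => hmax l (mem_univ _)
      _ = S.card * ‖e j₀‖ := by rw [Finset.sum_const, nsmul_eq_mul]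
  have h5 : (n : ℝ) * ‖e j₀‖ ≤ R.card * S.card * ‖e j₀‖ := by
    calc (n : ℝ) * ‖e j₀‖ = ‖(n : ℂ) * e j₀‖ := by rw [norm_mul]; simp
      _ = ‖∑ k ∈ R, (∑ l, e l * star (H k l)) * H k j₀‖ := by rw [h1]
      _ ≤ ∑ k ∈ R, ‖(∑ l, e l * star (H k l)) * H k j₀‖ := norm_sum_le _ _
      _ = ∑ k ∈ R, ‖∑ l, e l * star (H k l)‖ := by
          refine Finset.sum_congr rfl fun k _ => ?_
          rw [norm_mul, hH.1, mul_one]
      _ ≤ ∑ _k ∈ R, (S.card : ℝ) * ‖e j₀‖ := Finset.sum_le_sum fun k _ => h4 k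
      _ = R.card * S.card * ‖e j₀‖ := by rw [Finset.sum_const, nsmul_eq_mul]; ring
  have h6 := le_of_mul_le_mul_right h5 hpos
  exact_mod_cast h6

/-- **Main result.** Every trade in a complex Hadamard matrix of order `n` has size at least `n`. -/
theorem result (n : ℕ) (H : Matrix (Fin n) (Fin n) ℂ) (hH : IsComplexHadamard H)
    (T : Finset (Fin n × Fin n)) (hT : IsTrade H T) : n ≤ T.card := by
  classical
  obtain ⟨H', hH', hne, hT⟩ := hT
  set R : Finset (Fin n) := univ.filter fun i => ∃ j, H' i j ≠ H i j with hR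
  have hRmem : ∀ i, i ∈ R ↔ ∃ j, H' i j ≠ H i j := fun i => by simp [hR]
  have hRne : R.Nonempty := by
    by_contra hc
    rw [Finset.not_nonempty_iff_eq_empty] at hc
    apply hne
    ext i j
    by_contra h
    have : i ∈ R := (hRmem i).mpr ⟨j, h⟩
    rw [hc] at this
    exact absurd this (Finset.notMem_empty _)
  have hrow : ∀ k, k ∉ R → ∀ j, H' k j = H k j := by
    intro k hk j
    by_contra h
    exact hk ((hRmem k).mpr ⟨j, h⟩)
  have hb : ∀ i ∈ R, n ≤ R.card * (univ.filter fun j => H' i j - H i j ≠ 0).card := by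
    intro i hi
    refine support_bound hH (fun j => H' i j - H i j) R ?_ ?_
    · intro k hk
      have hik : i ≠ k := fun h => hk (h ▸ hi)
      have h1 := row_orth hH hik
      have h2 := row_orth hH' hik
      have h3 : ∑ j, H' i j * star (H k j) = 0 := by
        rw [← h2]
        exact Finset.sum_congr rfl fun j _ => by rw [hrow k hk j]
      simp only [sub_mul, Finset.sum_sub_distrib]
      rw [h1, h3, sub_zero]
    · obtain ⟨j, hj⟩ := (hRmem i).mp hi
      exact ⟨j, sub_ne_zero.mpr hj⟩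
  have hcard : T.card = ∑ i ∈ R, (univ.filter fun j => H' i j - H i j ≠ 0).card := by
    rw [Finset.card_eq_sum_card_fiberwise (f := Prod.fst) (t := R)]
    · refine Finset.sum_congr rfl fun i _ => ?_
      refine Finset.card_bij (fun p _ => p.2) ?_ ?_ ?_
      · rintro ⟨a, b⟩ hp
        rw [Finset.mem_filter] at hp
        obtain ⟨hp1, hp2⟩ := hp
        simp only at hp2
        subst hp2
        simp only [Finset.mem_filter, Finset.mem_univ, true_and]
        exact sub_ne_zero.mpr ((hT a b).mp hp1)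
      · rintro ⟨a, b⟩ hp ⟨a', b'⟩ hp' h
        rw [Finset.mem_filter] at hp hp'
        simp only at h
        have h1 := hp.2; have h2 := hp'.2
        simp only at h1 h2
        rw [h, h1, h2]
      · intro j hj
        simp only [Finset.mem_filter, Finset.mem_univ, true_and] at hj
        exact ⟨(i, j), by simp [(hT i j).mpr (sub_ne_zero.mp hj)], rfl⟩
    · rintro ⟨i, j⟩ hp
      exact (hRmem i).mpr ⟨j, (hT i j).mp hp⟩
  have hsum : R.card * n ≤ R.card * T.card := by
    calc R.card * n = ∑ _i ∈ R, n := by rw [Finset.sum_const, smul_eq_mul]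
      _ ≤ ∑ i ∈ R, R.card * (univ.filter fun j => H' i j - H i j ≠ 0).card :=
          Finset.sum_le_sum fun i hi => hb i hi
      _ = R.card * T.card := by rw [hcard, Finset.mul_sum]
  exact le_of_mul_le_mul_left hsum (Finset.card_pos.mpr hRne)

end Pool.Agent.Results.MP_f34218_co.TradeSize
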